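import Pool.Agent.helper92.ISO.SpecC
import Pool.Agent.helper97.PB.APP
import Pool.Agent.helper30.PB.SUB
import Pool.Agent.helper32.PB.CMP

/-!
# Row CNT of project ISO: symmetric functions
-/

set_option autoImplicit false

namespace Pool.Agent.ISO

open Pool.Agent.PB

namespace CNT

/-- available functions -/
def AvF {n : ℕ} (l : List (BF n)) (f : BF n) : Prop := f ∈ l ∨ ∃ j, f = fun x => x j

lemma AvF.cons {n : ℕ} {l : List (BF n)} {f : BF n} (h : AvF l f) (g : BF n) : AvF (g :: l) f :=
  h.imp (fun h => List.mem_cons_of_mem _ h) id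

lemma AvF.head {n : ℕ} (l : List (BF n)) (f : BF n) : AvF (f :: l) f := Or.inl List.mem_cons_self

lemma pconst {n : ℕ} {l : List (BF n)} (h : Prog std n l) (b : Bool) :
    Prog std n ((fun _ => b) :: l) := by
  have h1 : gConst b ∈ std := by cases b <;> simp [std]
  exact Prog.step l (gConst b) (fun i => Fin.elim0 i) h h1 (fun i => Fin.elim0 i)

lemma pnot {n : ℕ} {l : List (BF n)} (h : Prog std n l) {f : BF n} (hf : AvF l f) :
    Prog std n ((fun x => !(f x)) :: l) := by
  have h1 : gNot ∈ std := by simp [std]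
  exact Prog.step l gNot (fun _ => f) h h1 (fun _ => hf)

lemma pand {n : ℕ} {l : List (BF n)} (h : Prog std n l) {f g : BF n} (hf : AvF l f) (hg : AvF l g) :
    Prog std n ((fun x => f x && g x) :: l) := by
  have h1 : gAnd ∈ std := by simp [std]
  refine Prog.step l gAnd ![f, g] h h1 ?_
  intro i
  fin_cases i
  · exact hf
  · exact hg

lemma por {n : ℕ} {l : List (BF n)} (h : Prog std n l) {f g : BF n} (hf : AvF l f) (hg : AvF l g) :
    Prog std n ((fun x => f x || g x) :: l) := by
  have h1 : gOr ∈ std := by simp [std]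
  refine Prog.step l gOr ![f, g] h h1 ?_
  intro i
  fin_cases i
  · exact hf
  · exact hg

/-- exactly `j` of the first `i` variables are 1 -/
def cc (N i j : ℕ) : BF N := fun x =>
  decide ((Finset.univ.filter fun k : Fin N => (k : ℕ) < i ∧ x k = true).card = j)

lemma card_succ {N : ℕ} (i : ℕ) (hi : i < N) (x : Fin N → Bool) :
    (Finset.univ.filter fun k : Fin N => (k : ℕ) < i + 1 ∧ x k = true).card =
      (Finset.univ.filter fun k : Fin N => (k : ℕ) < i ∧ x k = true).card +
        (if x ⟨i, hi⟩ = true then 1 else 0) := by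
  by_cases hx : x ⟨i, hi⟩ = true
  · rw [if_pos hx]
    have h1 : (Finset.univ.filter fun k : Fin N => (k : ℕ) < i + 1 ∧ x k = true) =
        insert (⟨i, hi⟩ : Fin N) (Finset.univ.filter fun k : Fin N => (k : ℕ) < i ∧ x k = true) := by
      ext k
      simp only [Finset.mem_filter, Finset.mem_univ, true_and, Finset.mem_insert]
      constructor
      · rintro ⟨h1, h2⟩
        by_cases h3 : (k : ℕ) = i
        · left
          exact Fin.ext h3
        · right
          exact ⟨by omega, h2⟩
      · rintro (h1 | ⟨h1, h2⟩)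
        · subst h1
          exact ⟨by simp, hx⟩
        · exact ⟨by omega, h2⟩
    rw [h1, Finset.card_insert_of_notMem]
    simp
  · rw [if_neg hx, add_zero]
    congr 1
    ext k
    simp only [Finset.mem_filter, Finset.mem_univ, true_and]
    constructor
    · rintro ⟨h1, h2⟩
      refine ⟨?_, h2⟩
      by_contra h3
      have h4 : (k : ℕ) = i := by omega
      have h5 : k = ⟨i, hi⟩ := Fin.ext h4
      rw [h5] at h2
      exact hx h2
    · rintro ⟨h1, h2⟩
      exact ⟨by omega, h2⟩

lemma cc_succ_zero {N : ℕ} (i : ℕ) (hi : i < N) :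
    cc N (i + 1) 0 = fun x => (!(x ⟨i, hi⟩)) && cc N i 0 x := by
  funext x
  have h := card_succ i hi x
  unfold cc
  rw [h]
  cases hx : x ⟨i, hi⟩ <;> simp

lemma cc_succ_succ {N : ℕ} (i : ℕ) (hi : i < N) (j : ℕ) :
    cc N (i + 1) (j + 1) = fun x => (x ⟨i, hi⟩ && cc N i j x) || ((!(x ⟨i, hi⟩)) && cc N i (j + 1) x) := by
  funext x
  have h := card_succ i hi x
  unfold cc
  rw [h]
  cases hx : x ⟨i, hi⟩ <;> simp

lemma cc_big {N : ℕ} (i j : ℕ) (hj : N < j) : cc N i j = fun _ => false := by
  funext x
  unfold cc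
  have h : (Finset.univ.filter fun k : Fin N => (k : ℕ) < i ∧ x k = true).card ≤ N := by
    have := Finset.card_le_univ (Finset.univ.filter fun k : Fin N => (k : ℕ) < i ∧ x k = true)
    simpa using this
  simp only [decide_eq_false_iff_not]
  omega

lemma cc_zero_zero {N : ℕ} : cc N 0 0 = fun _ => true := by
  funext x
  unfold cc
  simp

lemma cc_zero_succ {N : ℕ} (j : ℕ) : cc N 0 (j + 1) = fun _ => false := by
  funext x
  unfold cc
  simp

/-- the inner induction: the functions `cc (i+1) j`, `j < m` -/
lemma inner {N : ℕ} (i : ℕ) (hi : i < N) (l : List (BF N)) (h : Prog std N l)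
    (hn : AvF l (fun x => !(x ⟨i, hi⟩))) (hc : ∀ j, AvF l (cc N i j)) (m : ℕ) :
    ∃ l' : List (BF N), Prog std N l' ∧ l'.length ≤ l.length + 3 * m ∧ (∀ f, AvF l f → AvF l' f) ∧
      ∀ j < m, AvF l' (cc N (i + 1) j) := by
  induction m with
  | zero => exact ⟨l, h, by simp, fun f hf => hf, fun j hj => absurd hj (Nat.not_lt_zero j)⟩
  | succ m ih =>
    obtain ⟨l', h1, h2, h3, h4⟩ := ih
    have hx : AvF l' (fun x : Fin N → Bool => x ⟨i, hi⟩) := Or.inr ⟨_, rfl⟩
    rcases m with _ | m
    · have h5 := pand h1 (h3 _ hn) (h3 _ (hc 0))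
      refine ⟨_, h5, ?_, fun f hf => (h3 f hf).cons _, ?_⟩
      · simp only [List.length_cons]
        omega
      · intro j hj
        have hj0 : j = 0 := by omega
        subst hj0
        rw [cc_succ_zero i hi]
        exact AvF.head _ _
    · have h5 := pand h1 hx (h3 _ (hc m))
      have h6 := pand h5 ((h3 _ hn).cons _) ((h3 _ (hc (m + 1))).cons _)
      have h7 := por h6 ((AvF.head l' (fun x : Fin N → Bool => x ⟨i, hi⟩ && cc N i m x)).cons _) (AvF.head _ _)
      refine ⟨_, h7, ?_, fun f hf => (((h3 f hf).cons _).cons _).cons _, ?_⟩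
      · simp only [List.length_cons]
        omega
      · intro j hj
        by_cases hjm : j = m + 1
        · subst hjm
          rw [cc_succ_succ i hi m]
          exact AvF.head _ _
        · exact (((h4 j (by omega)).cons _).cons _).cons _

lemma outer {N : ℕ} (i : ℕ) (hi : i ≤ N) :
    ∃ l : List (BF N), Prog std N l ∧ l.length ≤ 2 + i * (1 + 3 * (N + 1)) ∧ AvF l (fun _ => false) ∧
      ∀ j, AvF l (cc N i j) := by
  induction i with
  | zero =>
    have h1 := pconst (pconst (Prog.nil (G := std) (n := N)) false) true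
    refine ⟨_, h1, by simp, (AvF.head _ _).cons _, ?_⟩
    intro j
    rcases j with _ | j
    · rw [cc_zero_zero]
      exact AvF.head _ _
    · rw [cc_zero_succ]
      exact (AvF.head _ _).cons _
  | succ i ih =>
    obtain ⟨l, h1, h2, h3, h4⟩ := ih (by omega)
    have hi' : i < N := by omega
    have h5 := pnot h1 (f := fun x : Fin N → Bool => x ⟨i, hi'⟩) (Or.inr ⟨_, rfl⟩)
    obtain ⟨l', h6, h7, h8, h9⟩ := inner i hi' _ h5 (AvF.head _ _) (fun j => (h4 j).cons _) (N + 1)
    refine ⟨l', h6, ?_, h8 _ (h3.cons _), ?_⟩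
    · simp only [List.length_cons] at h7
      have h10 : (i + 1) * (1 + 3 * (N + 1)) = i * (1 + 3 * (N + 1)) + (1 + 3 * (N + 1)) := by ring
      omega
    · intro j
      by_cases hj : j < N + 1
      · exact h9 j hj
      · rw [cc_big (i + 1) j (by omega)]
        exact h8 _ (h3.cons _)

open Classical in
/-- the disjunction of the first `m` functions `cc N N j` with `P j` -/
noncomputable def dj (N : ℕ) (P : ℕ → Prop) (m : ℕ) : BF N := fun x => decide (∃ j < m, P j ∧ cc N N j x = true)

lemma dj_iff {N : ℕ} (P : ℕ → Prop) (m : ℕ) (x : Fin N → Bool) : dj N P m x = true ↔ ∃ j < m, P j ∧ cc N N j x = true := by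
  classical
  unfold dj
  exact decide_eq_true_iff

lemma final {N : ℕ} (P : ℕ → Prop) (l : List (BF N)) (h : Prog std N l) (h0 : AvF l (fun _ => false))
    (hc : ∀ j, AvF l (cc N N j)) (m : ℕ) :
    ∃ l' : List (BF N), Prog std N l' ∧ l'.length ≤ l.length + m ∧ (∀ f, AvF l f → AvF l' f) ∧
      AvF l' (dj N P m) := by
  induction m with
  | zero =>
    refine ⟨l, h, by simp, fun f hf => hf, ?_⟩
    have h1 : dj N P 0 = fun _ => false := by
      funext x
      rw [Bool.eq_iff_iff, dj_iff]
      simp
    rw [h1]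
    exact h0
  | succ m ih =>
    obtain ⟨l', h1, h2, h3, h4⟩ := ih
    by_cases hP : P m
    · have h5 := por h1 h4 (h3 _ (hc m))
      refine ⟨_, h5, ?_, fun f hf => (h3 f hf).cons _, ?_⟩
      · simp only [List.length_cons]
        omega
      · have h6 : dj N P (m + 1) = fun x => dj N P m x || cc N N m x := by
          funext x
          rw [Bool.eq_iff_iff, Bool.or_eq_true, dj_iff, dj_iff]
          constructor
          · rintro ⟨j, hj, hj1, hj2⟩
            by_cases hjm : j = m
            · subst hjm
              exact Or.inr hj2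
            · exact Or.inl ⟨j, by omega, hj1, hj2⟩
          · rintro (⟨j, hj, hj1, hj2⟩ | hj2)
            · exact ⟨j, by omega, hj1, hj2⟩
            · exact ⟨m, by omega, hP, hj2⟩
        rw [h6]
        exact AvF.head _ _
    · refine ⟨l', h1, by omega, h3, ?_⟩
      have h6 : dj N P (m + 1) = dj N P m := by
        funext x
        rw [Bool.eq_iff_iff, dj_iff, dj_iff]
        constructor
        · rintro ⟨j, hj, hj1, hj2⟩
          have hjm : j ≠ m := by
            rintro rfl
            exact hP hj1
          exact ⟨j, by omega, hj1, hj2⟩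
        · rintro ⟨j, hj, hj1, hj2⟩
          exact ⟨j, by omega, hj1, hj2⟩
      rw [h6]
      exact h4

lemma sym (N : ℕ) (P : ℕ → Prop) (F : BF N)
    (hF : ∀ x, F x = true ↔ P (Finset.univ.filter fun i => x i = true).card) :
    Size std F (10 * (N + 1) ^ 2) := by
  classical
  obtain ⟨l, h1, h2, h3, h4⟩ := outer (N := N) N le_rfl
  obtain ⟨l', h5, h6, _, h7⟩ := final P l h1 h3 h4 (N + 1)
  refine ⟨l', h5, ?_, ?_⟩
  · have : N * (1 + 3 * (N + 1)) = 3 * N ^ 2 + 4 * N := by ring
    have : 10 * (N + 1) ^ 2 = 10 * N ^ 2 + 20 * N + 10 := by ring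
    nlinarith
  · have h8 : dj N P (N + 1) = F := by
      funext x
      rw [Bool.eq_iff_iff, hF x, dj_iff]
      have h9 : (Finset.univ.filter fun k : Fin N => (k : ℕ) < N ∧ x k = true) =
          Finset.univ.filter fun i => x i = true := by
        ext k
        simp
      have h10 : (Finset.univ.filter fun i => x i = true).card ≤ N := by
        have := Finset.card_le_univ (Finset.univ.filter fun i => x i = true)
        simpa using this
      constructor
      · rintro ⟨j, _, hj1, hj2⟩
        unfold cc at hj2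
        rw [h9, decide_eq_true_iff] at hj2
        rw [hj2]
        exact hj1
      · intro hP
        refine ⟨_, Nat.lt_succ_of_le h10, hP, ?_⟩
        unfold cc
        rw [h9, decide_eq_true_iff]
    rw [h8] at h7
    exact h7

end CNT

theorem CNT_proof : CNT_stmt := by
  classical
  intro ι _ n t g F P hg hF
  set e := Fintype.equivFin ι with he
  set N := Fintype.card ι with hN
  let Fs : BF N := fun y => decide (P (Finset.univ.filter fun i => y i = true).card)
  have h1 : Size std Fs (10 * (N + 1) ^ 2) := by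
    apply CNT.sym N P Fs
    intro x
    simp only [Fs, decide_eq_true_iff]
  have h2 := (Pool.Agent.PB.CMP APP SUB)
  have h3 : Size std (fun x => Fs fun i => g (e.symm i) x) (10 * (N + 1) ^ 2 + ∑ i : Fin N, t) :=
    h2 std N n Fs (fun i => g (e.symm i)) _ (fun _ => t) h1 (fun i => hg _)
  have h4 : (fun x => Fs fun i => g (e.symm i) x) = F := by
    funext x
    rw [Bool.eq_iff_iff, hF x]
    simp only [Fs, decide_eq_true_iff]
    have h5 : (Finset.univ.filter fun i : Fin N => g (e.symm i) x = true).card =
        (Finset.univ.filter fun i : ι => g i x = true).card := by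
      apply Finset.card_bij (fun i _ => e.symm i)
      · intro i hi
        simpa using hi
      · intro i _ j _ hij
        exact e.symm.injective hij
      · intro b hb
        exact ⟨e b, by simpa using hb, by simp⟩
    rw [h5]
  rw [h4] at h3
  obtain ⟨l, h5, h6, h7⟩ := h3
  refine ⟨l, h5, ?_, h7⟩
  simp only [Finset.sum_const, Finset.card_univ, Fintype.card_fin, smul_eq_mul] at h6
  omega

end Pool.Agent.ISO
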